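import Mathlib

set_option autoImplicit false

open MeasureTheory Filter Topology Metric Set

namespace Pool.Agent.L5helper79.Riv

/-- the plane -/
abbrev E2 : Type := EuclideanSpace ℝ (Fin 2)

/-- the point with the coordinates `p.1`, `p.2` -/
noncomputable def Pt (p : ℝ × ℝ) : E2 := !₂[p.1, p.2]

/-- the point with first coordinate `p.1` and slope `p.2` -/
noncomputable def Psi (p : ℝ × ℝ) : E2 := !₂[p.1, p.1 * p.2]

@[simp] lemma Pt_zero (p : ℝ × ℝ) : Pt p 0 = p.1 := by simp [Pt]
@[simp] lemma Pt_one (p : ℝ × ℝ) : Pt p 1 = p.2 := by simp [Pt]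
@[simp] lemma Psi_zero (p : ℝ × ℝ) : Psi p 0 = p.1 := by simp [Psi]
@[simp] lemma Psi_one (p : ℝ × ℝ) : Psi p 1 = p.1 * p.2 := by simp [Psi]

/-- the slope change of variables in the plane of pairs -/
lemma map_slope : Measure.map (fun p : ℝ × ℝ => (p.1, p.1 * p.2))
    ((volume : Measure (ℝ × ℝ)).withDensity (fun p => ENNReal.ofReal |p.1|)) =
      (volume : Measure (ℝ × ℝ)) := by
  have hm : Measurable (fun p : ℝ × ℝ => (p.1, p.1 * p.2)) := by fun_prop
  ext S hS
  rw [Measure.map_apply hm hS, withDensity_apply _ (hm hS), ← lintegral_indicator (hm hS),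
    ← lintegral_indicator_one hS, Measure.volume_eq_prod]
  have hmeas : Measurable fun p : ℝ × ℝ =>
      ((fun p : ℝ × ℝ => (p.1, p.1 * p.2)) ⁻¹' S).indicator (fun p => ENNReal.ofReal |p.1|) p := by
    apply Measurable.indicator _ (hm hS)
    fun_prop
  rw [lintegral_prod _ hmeas.aemeasurable,
    lintegral_prod _ ((measurable_one.indicator hS).aemeasurable)]
  apply lintegral_congr_ae
  have h0 : ∀ᵐ r : ℝ, r ≠ 0 := by
    simp [ae_iff, measure_singleton]
  filter_upwards [h0] with r hr
  have h1 := Real.smul_map_volume_mul_left hr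
  conv_rhs => rw [← h1]
  rw [lintegral_smul_measure, lintegral_map _ (by fun_prop)]
  · rw [smul_eq_mul, ← lintegral_const_mul]
    · apply lintegral_congr
      intro s
      by_cases h : (r, r * s) ∈ S
      · simp [Set.indicator, h]
      · simp [Set.indicator, h]
    · exact (measurable_one.indicator hS).comp (by fun_prop)
  · exact (measurable_one.indicator hS).comp (by fun_prop)

lemma mp_Pt : MeasurePreserving Pt (volume : Measure (ℝ × ℝ)) (volume : Measure E2) := by
  have h1 := (volume_preserving_finTwoArrow ℝ).symm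
  have h2 := (EuclideanSpace.volume_preserving_symm_measurableEquiv_toLp (Fin 2)).symm
  have h3 := h2.comp h1
  have h4 : (⇑(MeasurableEquiv.toLp 2 (Fin 2 → ℝ)).symm.symm ∘
      ⇑(MeasurableEquiv.finTwoArrow (α := ℝ)).symm) = Pt := by
    funext p
    ext i
    fin_cases i <;> simp [Pt, MeasurableEquiv.toLp, MeasurableEquiv.finTwoArrow]
  rw [h4] at h3
  exact h3

/-- the measure in the coordinates (first coordinate, slope) -/
noncomputable def nu : Measure (ℝ × ℝ) :=
  (volume : Measure (ℝ × ℝ)).withDensity (fun p => ENNReal.ofReal |p.1|)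

lemma mp_Psi : MeasurePreserving Psi nu (volume : Measure E2) := by
  have h1 : MeasurePreserving (fun p : ℝ × ℝ => (p.1, p.1 * p.2)) nu
      (volume : Measure (ℝ × ℝ)) := ⟨by fun_prop, map_slope⟩
  exact mp_Pt.comp h1

end Pool.Agent.L5helper79.Riv
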