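import Pool.Agent.L5helper79.Riv.A

set_option autoImplicit false

open MeasureTheory Filter Topology Metric Set

namespace Pool.Agent.L5helper79.Riv

/-- the odd kernel, homogeneous of degree `-2`, with profile `w` in the slope -/
noncomputable def ker (w : ℝ → ℝ) (u : E2) : ℝ := (u 0)⁻¹ * |u 0|⁻¹ * w (u 1 / u 0)

lemma ker_Psi (w : ℝ → ℝ) (p : ℝ × ℝ) : ker w (Psi p) = p.1⁻¹ * |p.1|⁻¹ * w p.2 := by
  unfold ker
  rw [Psi_zero, Psi_one]
  by_cases h : p.1 = 0
  · simp [h]
  · rw [mul_div_cancel_left₀ _ h]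

lemma ker_measurable {w : ℝ → ℝ} (hw : Measurable w) : Measurable (ker w) := by
  unfold ker
  have h0 : Measurable fun u : E2 => u 0 := by fun_prop
  have h1 : Measurable fun u : E2 => u 1 := by fun_prop
  exact (h0.inv.mul (measurable_norm.comp h0).inv).mul (hw.comp (h1.div h0))

lemma ker_smul (w : ℝ → ℝ) (x : E2) (t : ℝ) (ht : 0 < t) :
    ker w (t • x) = t ^ (-((2 : ℕ) : ℤ)) * ker w x := by
  unfold ker
  simp only [PiLp.smul_apply, smul_eq_mul]
  rw [mul_div_mul_left _ _ ht.ne', abs_mul, abs_of_pos ht, mul_inv, mul_inv, zpow_neg]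
  norm_cast
  ring

lemma ker_neg (w : ℝ → ℝ) (x : E2) : ker w (-x) = - ker w x := by
  unfold ker
  simp only [PiLp.neg_apply]
  rw [neg_div_neg_eq, abs_neg, inv_neg]
  ring

lemma nsq (u : E2) : ‖u‖ ^ 2 = (u 0) ^ 2 + (u 1) ^ 2 := by
  rw [EuclideanSpace.real_norm_sq_eq]
  simp [Fin.sum_univ_two]

lemma abs_zero_le (u : E2) : |u 0| ≤ ‖u‖ := by
  apply abs_le_of_sq_le_sq _ (norm_nonneg _)
  rw [nsq]; nlinarith [sq_nonneg (u 1)]

lemma abs_one_le (u : E2) : |u 1| ≤ ‖u‖ := by
  apply abs_le_of_sq_le_sq _ (norm_nonneg _)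
  rw [nsq]; nlinarith [sq_nonneg (u 0)]

lemma norm_le_of_slope {u : E2} (h : |u 1| ≤ |u 0|) : ‖u‖ ≤ 2 * |u 0| := by
  apply le_of_sq_le_sq _ (by positivity)
  have h2 := sq_le_sq' (by linarith [abs_nonneg (u 0), abs_nonneg (u 1)]) h
  rw [sq_abs, sq_abs] at h2
  rw [nsq, mul_pow, sq_abs]
  nlinarith [sq_nonneg (u 0)]

/-- support of the kernel -/
lemma supp_ker {w : ℝ → ℝ} (hs : ∀ s, s ∉ Ioo (0 : ℝ) 1 → w s = 0) {u : E2} (h : ker w u ≠ 0) :
    ‖u‖ ≤ 2 * |u 0| ∧ u 0 ≠ 0 := by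
  have h0 : u 0 ≠ 0 := by
    intro h0
    apply h
    simp [ker, h0]
  refine ⟨norm_le_of_slope ?_, h0⟩
  have h1 : u 1 / u 0 ∈ Ioo (0 : ℝ) 1 := by
    by_contra h1
    apply h
    unfold ker
    rw [hs _ h1, mul_zero]
  have h2 : |u 1 / u 0| ≤ 1 := by
    rw [abs_le]
    constructor <;> linarith [h1.1, h1.2]
  rwa [abs_div, div_le_one (abs_pos.2 h0)] at h2

/-- change of variables -/
lemma integral_Psi {F : E2 → ℝ} (hF : AEStronglyMeasurable F volume) :
    ∫ u, F u = ∫ p : ℝ × ℝ, |p.1| * F (Psi p) := by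
  rw [← mp_Psi.map_eq, integral_map mp_Psi.measurable.aemeasurable (by rwa [mp_Psi.map_eq])]
  unfold nu
  rw [integral_withDensity_eq_integral_toReal_smul (by fun_prop) (by simp)]
  simp [ENNReal.toReal_ofReal]

lemma integrable_Psi {F : E2 → ℝ} (hF : AEStronglyMeasurable F volume) :
    Integrable F ↔ Integrable (fun p : ℝ × ℝ => |p.1| * F (Psi p)) := by
  have h1 : Integrable F (Measure.map Psi nu) ↔ Integrable (F ∘ Psi) nu :=
    integrable_map_measure (by rwa [mp_Psi.map_eq]) mp_Psi.measurable.aemeasurable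
  rw [mp_Psi.map_eq] at h1
  rw [h1]
  unfold nu
  rw [integrable_withDensity_iff_integrable_smul' (by fun_prop) (by simp)]
  simp [ENNReal.toReal_ofReal, Function.comp_def]

lemma int_aux {w φ : ℝ → ℝ} (hw : Measurable w) (hwi : Integrable w) (hφ : Measurable φ)
    (hφi : Integrable (fun r => φ r * r⁻¹)) : Integrable (fun u : E2 => φ (u 0) * ker w u) := by
  have hm : Measurable (fun u : E2 => φ (u 0) * ker w u) := by
    apply Measurable.mul _ (ker_measurable hw)
    exact hφ.comp (by fun_prop)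
  rw [integrable_Psi hm.aestronglyMeasurable]
  have h1 : (fun p : ℝ × ℝ => |p.1| * (φ ((Psi p) 0) * ker w (Psi p))) =
      fun p : ℝ × ℝ => (φ p.1 * p.1⁻¹) * w p.2 := by
    funext p
    rw [ker_Psi, Psi_zero]
    by_cases h : p.1 = 0
    · simp [h]
    · have : |p.1| ≠ 0 := abs_ne_zero.2 h
      field_simp
  rw [h1]
  exact hφi.mul_prod hwi

lemma int_aux2 {w φ : ℝ → ℝ} (hw : Measurable w) (hwi : Integrable (fun s => w s ^ 2))
    (hφ : Measurable φ) (hφi : Integrable (fun r => φ r * r⁻¹ ^ 2 * |r|⁻¹)) :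
    Integrable (fun u : E2 => φ (u 0) * ker w u ^ 2) := by
  have hm : Measurable (fun u : E2 => φ (u 0) * ker w u ^ 2) := by
    apply Measurable.mul _ ((ker_measurable hw).pow_const 2)
    exact hφ.comp (by fun_prop)
  rw [integrable_Psi hm.aestronglyMeasurable]
  have h1 : (fun p : ℝ × ℝ => |p.1| * (φ ((Psi p) 0) * ker w (Psi p) ^ 2)) =
      fun p : ℝ × ℝ => (φ p.1 * p.1⁻¹ ^ 2 * |p.1|⁻¹) * w p.2 ^ 2 := by
    funext p
    rw [ker_Psi, Psi_zero]
    by_cases h : p.1 = 0
    · simp [h]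
    · have : |p.1| ≠ 0 := abs_ne_zero.2 h
      field_simp
  rw [h1]
  exact hφi.mul_prod hwi

/-- the annulus -/
def Ann : Set E2 := {x : E2 | 1 ≤ ‖x‖ ∧ ‖x‖ ≤ 2}

lemma ann_meas : MeasurableSet Ann :=
  (measurableSet_le measurable_const measurable_norm).inter
    (measurableSet_le measurable_norm measurable_const)

noncomputable def cut (d R : ℝ) (r : ℝ) : ℝ := ({r : ℝ | d ≤ |r| ∧ |r| ≤ R}).indicator 1 r

lemma cut_set_meas (d R : ℝ) : MeasurableSet {r : ℝ | d ≤ |r| ∧ |r| ≤ R} :=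
  (measurableSet_le measurable_const measurable_norm).inter
    (measurableSet_le measurable_norm measurable_const)

lemma cut_meas (d R : ℝ) : Measurable (cut d R) := by
  unfold cut
  exact measurable_one.indicator (cut_set_meas d R)

lemma cut_set_vol (d R : ℝ) : volume {r : ℝ | d ≤ |r| ∧ |r| ≤ R} < ⊤ := by
  apply lt_of_le_of_lt (measure_mono (t := Icc (-R) R) _)
  · rw [Real.volume_Icc]; exact ENNReal.ofReal_lt_top
  · intro r hr
    exact abs_le.1 hr.2

lemma cut_int {d R : ℝ} {h : ℝ → ℝ} (hm : Measurable h) {M : ℝ}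
    (hM : ∀ r, d ≤ |r| → |r| ≤ R → |h r| ≤ M) : Integrable (fun r => cut d R r * h r) := by
  have h1 : (fun r => cut d R r * h r) = ({r : ℝ | d ≤ |r| ∧ |r| ≤ R}).indicator h := by
    funext r
    unfold cut
    by_cases hr : r ∈ {r : ℝ | d ≤ |r| ∧ |r| ≤ R}
    · simp [Set.indicator_of_mem hr]
    · simp [Set.indicator_of_notMem hr]
  rw [h1, integrable_indicator_iff (cut_set_meas d R)]
  apply Measure.integrableOn_of_bounded (M := M) (cut_set_vol d R).ne hm.aestronglyMeasurable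
  filter_upwards [ae_restrict_mem (cut_set_meas d R)] with r hr
  exact hM r hr.1 hr.2

lemma cut_ann {w : ℝ → ℝ} (hs : ∀ s, s ∉ Ioo (0 : ℝ) 1 → w s = 0) {u : E2} (hu : u ∈ Ann) :
    cut (1 / 2) 2 (u 0) * ker w u = ker w u := by
  by_cases h : ker w u = 0
  · rw [h, mul_zero]
  · have h1 := supp_ker hs h
    have h2 : u 0 ∈ {r : ℝ | 1 / 2 ≤ |r| ∧ |r| ≤ 2} :=
      ⟨by linarith [hu.1, h1.1], le_trans (abs_zero_le u) hu.2⟩
    unfold cut
    rw [Set.indicator_of_mem h2]
    simp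

lemma ker_int_ann {w : ℝ → ℝ} (hw : Measurable w) (hwi : Integrable w)
    (hs : ∀ s, s ∉ Ioo (0 : ℝ) 1 → w s = 0) : IntegrableOn (ker w) Ann := by
  have h1 : Integrable (fun u : E2 => cut (1 / 2) 2 (u 0) * ker w u) := by
    apply int_aux hw hwi (cut_meas _ _)
    apply cut_int (M := 2) measurable_inv
    intro r hr _
    rw [abs_inv]
    rw [inv_le_comm₀ (by linarith) (by norm_num)]
    linarith
  exact h1.integrableOn.congr_fun (fun u hu => cut_ann hs hu) ann_meas

lemma ker_sq_int_ann {w : ℝ → ℝ} (hw : Measurable w) (hwi : Integrable (fun s => w s ^ 2))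
    (hs : ∀ s, s ∉ Ioo (0 : ℝ) 1 → w s = 0) : IntegrableOn (fun u => ker w u ^ 2) Ann := by
  have h1 : Integrable (fun u : E2 => cut (1 / 2) 2 (u 0) * ker w u ^ 2) := by
    apply int_aux2 hw hwi (cut_meas _ _)
    have := cut_int (d := 1 / 2) (R := 2) (h := fun r => r⁻¹ ^ 2 * |r|⁻¹) (M := 2 ^ 2 * 2)
      (by fun_prop) (by
        intro r hr _
        rw [abs_mul, abs_pow, abs_inv, abs_inv, abs_abs]
        have : |r|⁻¹ ≤ 2 := by
          rw [inv_le_comm₀ (by linarith) (by norm_num)]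
          linarith
        gcongr)
    simpa [mul_assoc] using this
  refine h1.integrableOn.congr_fun (fun u hu => ?_) ann_meas
  have := cut_ann hs hu
  calc cut (1 / 2) 2 (u 0) * ker w u ^ 2 = (cut (1 / 2) 2 (u 0) * ker w u) * ker w u := by ring
    _ = ker w u ^ 2 := by rw [this]; ring

lemma ker_llogl {w : ℝ → ℝ} (hw : Measurable w) (hwi : Integrable (fun s => w s ^ 2))
    (hs : ∀ s, s ∉ Ioo (0 : ℝ) 1 → w s = 0) :
    IntegrableOn (fun u => |ker w u| * max 0 (Real.log |ker w u|)) Ann := by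
  apply Integrable.mono' (ker_sq_int_ann hw hwi hs)
  · have := ker_measurable hw
    apply Measurable.aestronglyMeasurable
    apply Measurable.mul (measurable_norm.comp this)
    exact measurable_const.max (Real.measurable_log.comp (measurable_norm.comp this))
  · refine Filter.Eventually.of_forall (fun u => ?_)
    have h0 : 0 ≤ max 0 (Real.log |ker w u|) := le_max_left _ _
    rw [Real.norm_eq_abs, abs_mul, abs_abs, abs_of_nonneg h0, ← sq_abs, sq]
    apply mul_le_mul_of_nonneg_left _ (abs_nonneg _)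
    apply max_le (abs_nonneg _)
    rcases eq_or_ne (|ker w u|) 0 with h | h
    · rw [h]; simp
    · exact (Real.log_le_sub_one_of_pos (lt_of_le_of_ne (abs_nonneg _) h.symm)).trans (by linarith)

/-- the integral of the kernel over a symmetric set vanishes -/
lemma ker_int_symm (w : ℝ → ℝ) {S : Set E2} (hS : MeasurableSet S) (hsym : ∀ u, u ∈ S → -u ∈ S) :
    ∫ u in S, ker w u = 0 := by
  have h1 : ∫ u in S, ker w u = ∫ u, S.indicator (ker w) u := (integral_indicator hS).symm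
  have h2 : ∫ u, S.indicator (ker w) u = ∫ u, S.indicator (ker w) (-u) :=
    (integral_neg_eq_self _ _).symm
  have h3 : (fun u => S.indicator (ker w) (-u)) = fun u => - S.indicator (ker w) u := by
    funext u
    by_cases h : u ∈ S
    · rw [Set.indicator_of_mem h, Set.indicator_of_mem (hsym u h), ker_neg]
    · have h' : -u ∉ S := fun h' => h (by simpa using hsym _ h')
      rw [Set.indicator_of_notMem h, Set.indicator_of_notMem h', neg_zero]
  rw [h3, integral_neg] at h2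
  rw [h1]
  linarith

lemma ker_int_zero (w : ℝ → ℝ) : ∫ u in Ann, ker w u = 0 :=
  ker_int_symm w ann_meas (fun u hu => ⟨by rw [norm_neg]; exact hu.1, by rw [norm_neg]; exact hu.2⟩)

end Pool.Agent.L5helper79.Riv
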