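import Pool.Agent.L5helper79.Riv.B

set_option autoImplicit false

open MeasureTheory Filter Topology Metric Set

namespace Pool.Agent.L5helper79.Riv

lemma cut_nonneg (d R r : ℝ) : 0 ≤ cut d R r := by
  unfold cut
  exact Set.indicator_nonneg (fun _ _ => zero_le_one) _

lemma cut_eq_one {d R r : ℝ} (h1 : d ≤ |r|) (h2 : |r| ≤ R) : cut d R r = 1 := by
  unfold cut
  rw [Set.indicator_of_mem (show r ∈ {r : ℝ | d ≤ |r| ∧ |r| ≤ R} from ⟨h1, h2⟩)]
  rfl

lemma abs_ker_int_cut {w : ℝ → ℝ} (hw : Measurable w) (hwi : Integrable w) {d R : ℝ} (hd : 0 < d) :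
    Integrable (fun u : E2 => cut d R (u 0) * ker w u) := by
  apply int_aux hw hwi (cut_meas _ _)
  apply cut_int (M := d⁻¹) measurable_inv
  intro r hr _
  rw [abs_inv]
  exact inv_anti₀ hd hr

/-- the kernel is integrable over bounded sets away from `0` -/
lemma ker_int_shell {w : ℝ → ℝ} (hw : Measurable w) (hwi : Integrable w)
    (hs : ∀ s, s ∉ Ioo (0 : ℝ) 1 → w s = 0) {d R : ℝ} (hd : 0 < d) {S : Set E2}
    (hS : MeasurableSet S) (hS2 : ∀ u ∈ S, d ≤ ‖u‖ ∧ ‖u‖ ≤ R) : IntegrableOn (ker w) S := by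
  refine (abs_ker_int_cut hw hwi (d := d / 2) (R := R) (by positivity)).integrableOn.congr_fun
    (fun u hu => ?_) hS
  by_cases h : ker w u = 0
  · simp only [h, mul_zero]
  · have h1 := supp_ker hs h
    have h2 := hS2 u hu
    simp only
    rw [cut_eq_one (by linarith) ((abs_zero_le u).trans h2.2), one_mul]

theorem pv_exists {w : ℝ → ℝ} (hw : Measurable w) (hwi : Integrable w)
    (hs : ∀ s, s ∉ Ioo (0 : ℝ) 1 → w s = 0) {f : E2 → ℝ} (hf : Measurable f) {M : ℝ}
    (hM : ∀ x, |f x| ≤ M) (hc : HasCompactSupport f) {x : E2} (hx : DifferentiableAt ℝ f x) :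
    ∃ l : ℝ, Tendsto (fun ε : ℝ => ∫ y in {y : E2 | ε < ‖y‖}, ker w y * f (x - y))
      (𝓝[>] 0) (𝓝 l) := by
  -- local Lipschitz bound
  obtain ⟨C0, hC0⟩ := hx.isBigO_sub.bound
  rw [Metric.eventually_nhds_iff] at hC0
  obtain ⟨δ, hδ, hC0⟩ := hC0
  set C : ℝ := |C0| with hCdef
  have hC : 0 ≤ C := abs_nonneg _
  have hlip : ∀ y : E2, ‖y‖ < δ → |f (x - y) - f x| ≤ C * ‖y‖ := by
    intro y hy
    have h1 := hC0 (y := x - y) (by simpa [dist_eq_norm] using hy)
    rw [Real.norm_eq_abs] at h1
    have h2 : x - y - x = -y := by abel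
    rw [h2, norm_neg] at h1
    exact h1.trans (mul_le_mul_of_nonneg_right (le_abs_self _) (norm_nonneg _))
  obtain ⟨R0, hR0⟩ : ∃ R0 : ℝ, ∀ y, f y ≠ 0 → ‖y‖ ≤ R0 := by
    obtain ⟨R0, hR0⟩ := hc.isBounded.subset_closedBall (0 : E2)
    refine ⟨R0, fun y hy => ?_⟩
    have := hR0 (subset_tsupport f hy)
    simpa using this
  set R1 : ℝ := R0 + ‖x‖ with hR1
  have hM0 : 0 ≤ M := (abs_nonneg _).trans (hM 0)
  set G : E2 → ℝ := fun y => ker w y * (f (x - y) - ({y : E2 | ‖y‖ < δ}).indicator (fun _ => f x) y)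
    with hG
  have hδm : MeasurableSet {y : E2 | ‖y‖ < δ} := measurableSet_lt measurable_norm measurable_const
  have hGm : Measurable G := by
    apply (ker_measurable hw).mul
    exact (hf.comp (by fun_prop)).sub (measurable_const.indicator hδm)
  set φ : ℝ → ℝ := fun r => cut 0 δ r * (2 * C * |r|) + cut (δ / 2) R1 r * M with hφ
  have hφ0 : ∀ r, 0 ≤ φ r := by
    intro r
    have := cut_nonneg 0 δ r
    have := cut_nonneg (δ / 2) R1 r
    simp only [hφ]
    positivity
  have hφm : Measurable φ := by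
    apply Measurable.add
    · exact (cut_meas _ _).mul (by fun_prop)
    · exact (cut_meas _ _).mul_const _
  have hφi : Integrable (fun r => φ r * r⁻¹) := by
    have h1 : (fun r => φ r * r⁻¹) = fun r => cut 0 δ r * (2 * C * |r| * r⁻¹) +
        cut (δ / 2) R1 r * (M * r⁻¹) := by
      funext r
      simp only [hφ]; ring
    rw [h1]
    apply Integrable.add
    · apply cut_int (M := 2 * C) (by fun_prop)
      intro r _ _
      rw [abs_mul, abs_mul, abs_abs, abs_inv, abs_of_nonneg (by positivity : 0 ≤ 2 * C)]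
      by_cases h : r = 0
      · simp [h]; positivity
      · rw [mul_assoc, mul_inv_cancel₀ (abs_ne_zero.2 h), mul_one]
    · apply cut_int (M := M * (δ / 2)⁻¹) (by fun_prop)
      intro r hr _
      rw [abs_mul, abs_inv, abs_of_nonneg hM0]
      exact mul_le_mul_of_nonneg_left (inv_anti₀ (by positivity) hr) hM0
  have hGi : Integrable G := by
    apply Integrable.mono (int_aux hw hwi hφm hφi) hGm.aestronglyMeasurable
    refine Filter.Eventually.of_forall (fun y => ?_)
    rw [Real.norm_eq_abs, Real.norm_eq_abs, abs_mul, abs_mul, abs_of_nonneg (hφ0 _)]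
    by_cases h : ker w y = 0
    · simp [h]
    · rw [mul_comm]
      apply mul_le_mul_of_nonneg_right _ (abs_nonneg _)
      have h1 := supp_ker hs h
      by_cases hy : ‖y‖ < δ
      · rw [Set.indicator_of_mem (show y ∈ {y : E2 | ‖y‖ < δ} from hy)]
        have h3 := cut_nonneg (δ / 2) R1 (y 0)
        simp only [hφ]
        rw [cut_eq_one (abs_nonneg _) ((abs_zero_le y).trans hy.le)]
        have h2 := hlip y hy
        have h4 : C * ‖y‖ ≤ C * (2 * |y 0|) := mul_le_mul_of_nonneg_left h1.1 hC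
        nlinarith [mul_nonneg h3 hM0]
      · rw [Set.indicator_of_notMem (show y ∉ {y : E2 | ‖y‖ < δ} from hy), sub_zero]
        by_cases hf0 : f (x - y) = 0
        · rw [hf0, abs_zero]; exact hφ0 _
        · have h2 := hR0 _ hf0
          have h3 : ‖y‖ ≤ R1 := by
            have : ‖y‖ ≤ ‖x - y‖ + ‖x‖ := by
              have h5 : y = -(x - y) + x := by abel
              calc ‖y‖ = ‖-(x - y) + x‖ := by rw [← h5]
                _ ≤ ‖-(x - y)‖ + ‖x‖ := norm_add_le _ _
                _ = ‖x - y‖ + ‖x‖ := by rw [norm_neg]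
            linarith
          push_neg at hy
          simp only [hφ]
          rw [cut_eq_one (show δ / 2 ≤ |y 0| by linarith) ((abs_zero_le y).trans h3)]
          have h4 := cut_nonneg 0 δ (y 0)
          have h5 : 0 ≤ cut 0 δ (y 0) * (2 * C * |y 0|) := by positivity
          linarith [hM (x - y)]
  refine ⟨∫ y, G y, ?_⟩
  have hlim : Tendsto (fun ε : ℝ => ∫ y, ({y : E2 | ε < ‖y‖}).indicator G y) (𝓝[>] 0)
      (𝓝 (∫ y, G y)) := by
    apply tendsto_integral_filter_of_dominated_convergence (fun y => ‖G y‖)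
    · refine Filter.Eventually.of_forall (fun ε => ?_)
      exact (hGm.indicator (measurableSet_lt measurable_const measurable_norm)).aestronglyMeasurable
    · refine Filter.Eventually.of_forall (fun ε => Filter.Eventually.of_forall (fun y => ?_))
      exact norm_indicator_le_norm_self _ _
    · exact hGi.norm
    · refine Filter.Eventually.of_forall (fun y => ?_)
      by_cases hy : y = 0
      · subst hy
        have : G 0 = 0 := by simp [hG, ker]
        rw [this]
        apply tendsto_const_nhds.congr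
        intro ε
        by_cases h : (0 : E2) ∈ {y : E2 | ε < ‖y‖}
        · rw [Set.indicator_of_mem h, this]
        · rw [Set.indicator_of_notMem h]
      · apply tendsto_const_nhds.congr'
        have h1 : ∀ᶠ ε : ℝ in 𝓝[>] 0, ε < ‖y‖ :=
          nhdsWithin_le_nhds (Iio_mem_nhds (norm_pos_iff.2 hy))
        filter_upwards [h1] with ε hε
        rw [Set.indicator_of_mem (show y ∈ {y : E2 | ε < ‖y‖} from hε)]
  apply hlim.congr'
  have h1 : ∀ᶠ ε : ℝ in 𝓝[>] 0, ε < δ := nhdsWithin_le_nhds (Iio_mem_nhds hδ)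
  filter_upwards [h1, self_mem_nhdsWithin] with ε hε hε0
  have hε0' : (0 : ℝ) < ε := hε0
  have hSm : MeasurableSet {y : E2 | ε < ‖y‖} := measurableSet_lt measurable_const measurable_norm
  set S2 : Set E2 := {y : E2 | ε < ‖y‖} ∩ {y : E2 | ‖y‖ < δ} with hS2
  have hS2m : MeasurableSet S2 := hSm.inter hδm
  have hki : IntegrableOn (ker w) S2 :=
    ker_int_shell hw hwi hs hε0' hS2m (fun u hu => ⟨le_of_lt hu.1, le_of_lt hu.2⟩)
  have hk0 : ∫ y in S2, ker w y = 0 :=
    ker_int_symm w hS2m (fun u hu => ⟨by simpa using hu.1, by simpa using hu.2⟩)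
  rw [integral_indicator hSm]
  have h2 : ∫ y in {y : E2 | ε < ‖y‖}, ker w y * f (x - y) =
      ∫ y in {y : E2 | ε < ‖y‖}, (G y + ({y : E2 | ‖y‖ < δ}).indicator (ker w) y * f x) := by
    apply setIntegral_congr_fun hSm
    intro y _
    simp only [hG]
    by_cases hy : y ∈ {y : E2 | ‖y‖ < δ}
    · rw [Set.indicator_of_mem hy, Set.indicator_of_mem hy]; ring
    · rw [Set.indicator_of_notMem hy, Set.indicator_of_notMem hy]; ring
  rw [h2, integral_add hGi.integrableOn]
  · rw [integral_mul_const, setIntegral_indicator hδm, ← hS2, hk0, zero_mul, add_zero]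
  · apply Integrable.mul_const
    rw [integrable_indicator_iff hδm, IntegrableOn, Measure.restrict_restrict hδm]
    rw [Set.inter_comm]
    exact hki

end Pool.Agent.L5helper79.Riv
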