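import Pool.Agent.L5helper79.Riv.C

set_option autoImplicit false

open MeasureTheory Filter Topology Metric Set

namespace Pool.Agent.L5helper79.Riv

/-- the square, in pairs -/
def Qs : Set (ℝ × ℝ) := Icc (-1) 1 ×ˢ Icc (-1) 1

lemma Qs_meas : MeasurableSet Qs := measurableSet_Icc.prod measurableSet_Icc

/-- the test function, in pairs -/
noncomputable def aa (q : ℝ × ℝ) : ℝ := Qs.indicator (fun q => 1 - 3 * q.2 ^ 2) q

/-- the test function -/
noncomputable def av (x : E2) : ℝ := aa (x 0, x 1)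

lemma aa_meas : Measurable aa := by
  unfold aa
  exact Measurable.indicator (by fun_prop) Qs_meas

lemma av_meas : Measurable av := by
  unfold av
  exact aa_meas.comp (by fun_prop)

lemma av_Pt (q : ℝ × ℝ) : av (Pt q) = aa q := by
  unfold av; simp

/-- bound for the test function -/
noncomputable def ab (q : ℝ × ℝ) : ℝ := Qs.indicator (fun _ => (2 : ℝ)) q

lemma abs_aa_le (q : ℝ × ℝ) : |aa q| ≤ ab q := by
  unfold aa ab
  by_cases h : q ∈ Qs
  · rw [Set.indicator_of_mem h, Set.indicator_of_mem h]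
    have h2 := h.2
    have h3 : q.2 ^ 2 ≤ 1 := by
      have := abs_le.2 ⟨h2.1, h2.2⟩
      nlinarith [sq_abs q.2, abs_nonneg q.2]
    rw [abs_le]
    constructor <;> nlinarith [sq_nonneg q.2]
  · rw [Set.indicator_of_notMem h, Set.indicator_of_notMem h, abs_zero]

lemma ab_nonneg (q : ℝ × ℝ) : 0 ≤ ab q := Set.indicator_nonneg (fun _ _ => by norm_num) _

lemma ab_meas : Measurable ab := measurable_const.indicator Qs_meas

lemma Qs_vol : volume Qs < ⊤ := by
  unfold Qs
  rw [Measure.volume_eq_prod, Measure.prod_prod, Real.volume_Icc]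
  exact ENNReal.mul_lt_top ENNReal.ofReal_lt_top ENNReal.ofReal_lt_top

lemma ab_int : Integrable ab := by
  unfold ab
  rw [show (fun q : ℝ × ℝ => Qs.indicator (fun _ => (2 : ℝ)) q) = Qs.indicator (fun _ => (2 : ℝ))
    from rfl, integrable_indicator_iff Qs_meas]
  exact integrableOn_const Qs_vol.ne

lemma abs_av_le (x : E2) : |av x| ≤ 2 := by
  refine (abs_aa_le _).trans ?_
  unfold ab
  by_cases h : ((x 0, x 1) : ℝ × ℝ) ∈ Qs
  · rw [Set.indicator_of_mem h]
  · rw [Set.indicator_of_notMem h]; norm_num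

/-- admissible data functions -/
structure Good (R : ℝ) (f : E2 → ℝ) : Prop where
  meas : Measurable f
  bd : ∀ x, |f x| ≤ 1
  supp : ∀ y, f y ≠ 0 → -R ≤ y 0 ∧ y 0 ≤ -4 ∧ |y 1| ≤ R
  diff : ∀ᵐ x : E2, DifferentiableAt ℝ f x

lemma Good.hcs {R : ℝ} {f : E2 → ℝ} (h : Good R f) : HasCompactSupport f := by
  apply HasCompactSupport.of_support_subset_isCompact (isCompact_closedBall (0 : E2) (2 * R))
  intro y hy
  have h1 := h.supp y hy
  rw [mem_closedBall, dist_zero_right]
  have h2 : 0 ≤ R := (abs_nonneg _).trans h1.2.2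
  apply le_of_sq_le_sq _ (by positivity)
  rw [nsq]
  have h3 : (y 0) ^ 2 ≤ R ^ 2 := by
    apply sq_le_sq'
    · exact h1.1
    · linarith [h1.2.1]
  have h4 : (y 1) ^ 2 ≤ R ^ 2 := by
    have := abs_le.1 h1.2.2
    exact sq_le_sq' this.1 this.2
  nlinarith

/-- the four-fold integrand -/
noncomputable def FF (f : E2 → ℝ) (w : ℝ → ℝ) (z : (ℝ × ℝ) × (ℝ × ℝ)) : ℝ :=
  aa z.1 * (z.2.1⁻¹ * w z.2.2) * f (Pt z.1 - Psi z.2)

/-- the functional -/
noncomputable def TT (f : E2 → ℝ) (w : ℝ → ℝ) : ℝ := ∫ z : (ℝ × ℝ) × (ℝ × ℝ), FF f w z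

lemma Pt_meas : Measurable Pt := mp_Pt.measurable
lemma Psi_meas : Measurable Psi := mp_Psi.measurable

lemma FF_meas {f : E2 → ℝ} (hf : Measurable f) {w : ℝ → ℝ} (hw : Measurable w) :
    Measurable (FF f w) := by
  unfold FF
  apply Measurable.mul
  · apply Measurable.mul (aa_meas.comp measurable_fst)
    exact (measurable_snd.fst.inv).mul (hw.comp measurable_snd.snd)
  · exact hf.comp ((Pt_meas.comp measurable_fst).sub (Psi_meas.comp measurable_snd))

/-- pointwise bound, the radial part -/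
lemma FF_bound {R : ℝ} {f : E2 → ℝ} (hf : Good R f) (q : ℝ × ℝ) (r s : ℝ) :
    |aa q * r⁻¹ * f (Pt q - Psi (r, s))| ≤ ab q * (cut 3 (R + 1) r * |r⁻¹|) := by
  by_cases h0 : f (Pt q - Psi (r, s)) = 0
  · rw [h0, mul_zero, abs_zero]
    have := ab_nonneg q
    have := cut_nonneg 3 (R + 1) r
    positivity
  by_cases hq : q ∈ Qs
  · have h1 := hf.supp _ h0
    simp only [PiLp.sub_apply, Pt_zero, Psi_zero] at h1
    have hq1 := hq.1
    have h2 : 3 ≤ r := by linarith [h1.2.1, hq1.1]
    have h3 : r ≤ R + 1 := by linarith [h1.1, hq1.2]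
    rw [cut_eq_one (by rw [abs_of_nonneg (by linarith)]; exact h2)
      (by rw [abs_of_nonneg (by linarith)]; exact h3), one_mul, abs_mul, abs_mul]
    calc |aa q| * |r⁻¹| * |f (Pt q - Psi (r, s))| ≤ ab q * |r⁻¹| * 1 := by
          gcongr
          · exact mul_nonneg (ab_nonneg q) (abs_nonneg _)
          · exact abs_aa_le q
          · exact hf.bd _
      _ = ab q * |r⁻¹| := mul_one _
  · have : aa q = 0 := by unfold aa; rw [Set.indicator_of_notMem hq]
    rw [this]
    simp only [zero_mul, abs_zero]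
    have := ab_nonneg q
    have := cut_nonneg 3 (R + 1) r
    positivity

lemma cutinv_int (R : ℝ) : Integrable (fun r => cut 3 (R + 1) r * |r⁻¹|) := by
  apply cut_int (M := 3⁻¹) (by fun_prop)
  intro r hr _
  rw [abs_abs, abs_inv]
  exact inv_anti₀ (by norm_num) hr

lemma FF_int {R : ℝ} {f : E2 → ℝ} (hf : Good R f) {w : ℝ → ℝ} (hw : Measurable w)
    (hwi : Integrable w) : Integrable (FF f w) := by
  have h1 : Integrable (fun z : (ℝ × ℝ) × (ℝ × ℝ) =>
      ab z.1 * ((cut 3 (R + 1) z.2.1 * |z.2.1⁻¹|) * |w z.2.2|)) :=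
    ab_int.mul_prod ((cutinv_int R).mul_prod hwi.abs)
  apply h1.mono' (FF_meas hf.meas hw).aestronglyMeasurable
  refine Filter.Eventually.of_forall (fun z => ?_)
  obtain ⟨q, r, s⟩ := z
  have h2 := FF_bound hf q r s
  have h3 : FF f w (q, (r, s)) = (aa q * r⁻¹ * f (Pt q - Psi (r, s))) * w s := by
    unfold FF; ring
  rw [h3, Real.norm_eq_abs, abs_mul]
  calc |aa q * r⁻¹ * f (Pt q - Psi (r, s))| * |w s|
      ≤ (ab q * (cut 3 (R + 1) r * |r⁻¹|)) * |w s| :=
        mul_le_mul_of_nonneg_right h2 (abs_nonneg _)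
    _ = ab q * (cut 3 (R + 1) r * |r⁻¹| * |w s|) := by ring

/-- the function representing the functional -/
noncomputable def wf (f : E2 → ℝ) (s : ℝ) : ℝ :=
  ∫ r : ℝ, ∫ q : ℝ × ℝ, aa q * r⁻¹ * f (Pt q - Psi (r, s))

lemma TT_eq {R : ℝ} {f : E2 → ℝ} (hf : Good R f) {w : ℝ → ℝ} (hw : Measurable w)
    (hwi : Integrable w) : TT f w = ∫ s, w s * wf f s := by
  have h1 := FF_int hf hw hwi
  unfold TT
  rw [Measure.volume_eq_prod] at h1 ⊢
  rw [integral_prod_symm _ h1]
  have h2 := h1.integral_prod_right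
  rw [Measure.volume_eq_prod] at h2 ⊢
  rw [integral_prod_symm _ h2]
  apply integral_congr_ae
  refine Filter.Eventually.of_forall (fun s => ?_)
  simp only [wf]
  rw [← integral_const_mul]
  apply integral_congr_ae
  refine Filter.Eventually.of_forall (fun r => ?_)
  simp only
  rw [← integral_const_mul]
  apply integral_congr_ae
  refine Filter.Eventually.of_forall (fun q => ?_)
  simp only [FF]
  ring

lemma wf_bound {R : ℝ} {f : E2 → ℝ} (hf : Good R f) :
    ∃ K : ℝ, ∀ s, |wf f s| ≤ K := by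
  refine ⟨∫ r : ℝ, ∫ q : ℝ × ℝ, ab q * (cut 3 (R + 1) r * |r⁻¹|), fun s => ?_⟩
  unfold wf
  rw [← Real.norm_eq_abs]
  have hi : ∀ r : ℝ, Integrable (fun q : ℝ × ℝ => ab q * (cut 3 (R + 1) r * |r⁻¹|)) :=
    fun r => ab_int.mul_const _
  apply norm_integral_le_of_norm_le
  · simp only [integral_mul_const]
    have := (cutinv_int R).const_mul (∫ q, ab q)
    exact this
  · refine Filter.Eventually.of_forall (fun r => ?_)
    apply norm_integral_le_of_norm_le (hi r)
    refine Filter.Eventually.of_forall (fun q => ?_)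
    exact FF_bound hf q r s

lemma wf_meas {f : E2 → ℝ} (hf : Measurable f) : Measurable (wf f) := by
  unfold wf
  have h1 : Measurable (fun z : (ℝ × ℝ) × (ℝ × ℝ) =>
      aa z.2 * z.1.2⁻¹ * f (Pt z.2 - Psi (z.1.2, z.1.1))) := by
    apply Measurable.mul
    · exact (aa_meas.comp measurable_snd).mul measurable_fst.snd.inv
    · apply hf.comp
      apply (Pt_meas.comp measurable_snd).sub
      exact Psi_meas.comp (measurable_fst.snd.prodMk measurable_fst.fst)
  have h2 : StronglyMeasurable (fun p : ℝ × ℝ =>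
      ∫ q : ℝ × ℝ, aa q * p.2⁻¹ * f (Pt q - Psi (p.2, p.1))) :=
    h1.stronglyMeasurable.integral_prod_right
  exact h2.integral_prod_right.measurable

/-- the functional and the operator -/
theorem link {R : ℝ} {f : E2 → ℝ} (hf : Good R f) {w : ℝ → ℝ} (hw : Measurable w)
    (hwi : Integrable w) {g : E2 → ℝ}
    (hg : ∀ᵐ x : E2, Tendsto (fun ε : ℝ => ∫ y in {y : E2 | ε < ‖y‖}, ker w y * f (x - y))
      (𝓝[>] 0) (𝓝 (g x))) :
    ∫ x in ball (0 : E2) 2, av x * g x = TT f w := by
  -- inside the square the limit is the integral over the whole plane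
  have h1 : ∀ᵐ x : E2, av x * g x = av x * ∫ u, ker w u * f (x - u) := by
    filter_upwards [hg] with x hx
    by_cases hq : ((x 0, x 1) : ℝ × ℝ) ∈ Qs
    · congr 1
      apply tendsto_nhds_unique hx
      apply tendsto_const_nhds.congr'
      have h2 : ∀ᶠ ε : ℝ in 𝓝[>] 0, ε < 1 := nhdsWithin_le_nhds (Iio_mem_nhds one_pos)
      filter_upwards [h2] with ε hε
      symm
      apply setIntegral_eq_integral_of_forall_compl_eq_zero
      intro u hu
      have hu' : ‖u‖ ≤ ε := not_lt.1 hu
      by_cases h0 : f (x - u) = 0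
      · rw [h0, mul_zero]
      · exfalso
        have h3 := (hf.supp _ h0).2.1
        simp only [PiLp.sub_apply] at h3
        have h4 := abs_le.1 ((abs_zero_le u).trans hu')
        have h5 : (-1 : ℝ) ≤ x 0 := hq.1.1
        linarith [h4.2]
    · have : av x = 0 := by unfold av aa; rw [Set.indicator_of_notMem hq]
      rw [this, zero_mul, zero_mul]
  have h2 : ∫ x in ball (0 : E2) 2, av x * g x = ∫ x, av x * g x := by
    apply setIntegral_eq_integral_of_forall_compl_eq_zero
    intro x hx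
    by_cases hq : ((x 0, x 1) : ℝ × ℝ) ∈ Qs
    · exfalso
      apply hx
      rw [mem_ball, dist_zero_right]
      apply lt_of_pow_lt_pow_left₀ 2 (by norm_num)
      rw [nsq]
      have h3 := hq.1
      have h4 := hq.2
      simp only [mem_Icc] at h3 h4
      nlinarith
    · have : av x = 0 := by unfold av aa; rw [Set.indicator_of_notMem hq]
      rw [this, zero_mul]
  rw [h2, integral_congr_ae h1]
  have h3 : ∀ x : E2, ∫ u, ker w u * f (x - u) =
      ∫ p : ℝ × ℝ, p.1⁻¹ * w p.2 * f (x - Psi p) := by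
    intro x
    rw [integral_Psi]
    · apply integral_congr_ae
      refine Filter.Eventually.of_forall (fun p => ?_)
      simp only
      rw [ker_Psi]
      by_cases h : p.1 = 0
      · simp [h]
      · have : |p.1| ≠ 0 := abs_ne_zero.2 h
        field_simp
    · apply Measurable.aestronglyMeasurable
      exact (ker_measurable hw).mul (hf.meas.comp (by fun_prop))
  simp only [h3]
  have hmeas : StronglyMeasurable (fun x : E2 =>
      av x * ∫ p : ℝ × ℝ, p.1⁻¹ * w p.2 * f (x - Psi p)) := by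
    apply av_meas.stronglyMeasurable.mul
    have h4 : Measurable (fun z : E2 × (ℝ × ℝ) => z.2.1⁻¹ * w z.2.2 * f (z.1 - Psi z.2)) := by
      apply Measurable.mul
      · exact measurable_snd.fst.inv.mul (hw.comp measurable_snd.snd)
      · exact hf.meas.comp (measurable_fst.sub (Psi_meas.comp measurable_snd))
    exact h4.stronglyMeasurable.integral_prod_right
  rw [← mp_Pt.map_eq, integral_map mp_Pt.measurable.aemeasurable hmeas.aestronglyMeasurable]
  have h5 := FF_int hf hw hwi
  have h6 : TT f w = ∫ q : ℝ × ℝ, ∫ p : ℝ × ℝ, FF f w (q, p) :=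
    integral_prod (μ := (volume : Measure (ℝ × ℝ))) (ν := (volume : Measure (ℝ × ℝ))) (FF f w) h5
  rw [h6]
  apply integral_congr_ae
  refine Filter.Eventually.of_forall (fun q => ?_)
  simp only
  rw [← integral_const_mul, av_Pt]
  apply integral_congr_ae
  refine Filter.Eventually.of_forall (fun p => ?_)
  simp only [FF]
  ring

end Pool.Agent.L5helper79.Riv
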