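import Pool.Agent.L5helper79.Riv.D

set_option autoImplicit false

open MeasureTheory Filter Topology Metric Set

namespace Pool.Agent.L5helper79.Riv

/-! ### one-dimensional integrals -/

lemma A_lower {l : ℝ} (hl0 : 0 ≤ l) (hl1 : l ≤ 1) :
    l ^ 2 / 5 ≤ ∫ x in (-1 : ℝ)..1, (1 - 3 * x ^ 2) * Real.cos (l * x) := by
  have h1 : ∫ x in (-1 : ℝ)..1, ((1 - 3 * x ^ 2) * (1 - (l * x) ^ 2 / 2) - 15 / 96 * l ^ 4 * x ^ 6)
      = 4 / 15 * l ^ 2 - 5 / 112 * l ^ 4 := by
    have h2 : ∀ x : ℝ, (1 - 3 * x ^ 2) * (1 - (l * x) ^ 2 / 2) - 15 / 96 * l ^ 4 * x ^ 6 =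
        1 - (3 + l ^ 2 / 2) * x ^ 2 + 3 * l ^ 2 / 2 * x ^ 4 - 15 / 96 * l ^ 4 * x ^ 6 := by
      intro x; ring
    simp_rw [h2]
    rw [intervalIntegral.integral_sub, intervalIntegral.integral_add, intervalIntegral.integral_sub,
      intervalIntegral.integral_const_mul, intervalIntegral.integral_const_mul,
      intervalIntegral.integral_const_mul, integral_pow, integral_pow, integral_pow]
    · simp
      ring
    all_goals apply Continuous.intervalIntegrable; fun_prop
  have h3 : ∫ x in (-1 : ℝ)..1, ((1 - 3 * x ^ 2) * (1 - (l * x) ^ 2 / 2) -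
      15 / 96 * l ^ 4 * x ^ 6) ≤ ∫ x in (-1 : ℝ)..1, (1 - 3 * x ^ 2) * Real.cos (l * x) := by
    apply intervalIntegral.integral_mono_on (by norm_num)
    · apply Continuous.intervalIntegrable; fun_prop
    · apply Continuous.intervalIntegrable; fun_prop
    · intro x hx
      have hx1 : |x| ≤ 1 := abs_le.2 ⟨hx.1, hx.2⟩
      have h4 : |l * x| ≤ 1 := by
        rw [abs_mul, abs_of_nonneg hl0]
        exact mul_le_one₀ hl1 (abs_nonneg _) hx1
      have h5 := Real.cos_bound h4
      have h6 := Real.one_sub_sq_div_two_le_cos (x := l * x)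
      rw [abs_le] at h5
      have h7 : |l * x| ^ 4 = l ^ 4 * x ^ 4 := by
        rw [abs_mul, mul_pow, abs_of_nonneg hl0]
        congr 1
        rw [show (4 : ℕ) = 2 * 2 from rfl, pow_mul, pow_mul, sq_abs]
      rw [h7] at h5
      have h8 : 0 ≤ x ^ 2 := sq_nonneg x
      have h9 : x ^ 2 * Real.cos (l * x) ≤ x ^ 2 * ((1 - (l * x) ^ 2 / 2) +
          l ^ 4 * x ^ 4 * (5 / 96)) := mul_le_mul_of_nonneg_left (by linarith [h5.2]) h8
      nlinarith
  have h10 : l ^ 4 ≤ l ^ 2 := pow_le_pow_of_le_one hl0 hl1 (by norm_num)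
  nlinarith

lemma A_odd (l : ℝ) : ∫ x in (-1 : ℝ)..1, (1 - 3 * x ^ 2) * Real.sin (l * x) = 0 := by
  have h1 := intervalIntegral.integral_comp_neg (a := (-1 : ℝ)) (b := 1)
    (fun x => (1 - 3 * x ^ 2) * Real.sin (l * x))
  simp only [neg_neg] at h1
  have h2 : ∀ x : ℝ, (1 - 3 * (-x) ^ 2) * Real.sin (l * -x) =
      -((1 - 3 * x ^ 2) * Real.sin (l * x)) := by
    intro x
    rw [mul_neg, Real.sin_neg]; ring
  simp_rw [h2] at h1
  rw [intervalIntegral.integral_neg] at h1
  linarith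

lemma A_shift (l c : ℝ) : ∫ x in (-1 : ℝ)..1, (1 - 3 * x ^ 2) * Real.cos (l * (x - c)) =
    Real.cos (l * c) * ∫ x in (-1 : ℝ)..1, (1 - 3 * x ^ 2) * Real.cos (l * x) := by
  have h1 : ∀ x : ℝ, (1 - 3 * x ^ 2) * Real.cos (l * (x - c)) =
      Real.cos (l * c) * ((1 - 3 * x ^ 2) * Real.cos (l * x)) +
      Real.sin (l * c) * ((1 - 3 * x ^ 2) * Real.sin (l * x)) := by
    intro x
    rw [mul_sub, Real.cos_sub]; ring
  simp_rw [h1]
  rw [intervalIntegral.integral_add, intervalIntegral.integral_const_mul,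
    intervalIntegral.integral_const_mul, A_odd, mul_zero, add_zero]
  all_goals apply Continuous.intervalIntegrable; fun_prop

lemma A_shift_lower {l c : ℝ} (hl : 1 / 2 ≤ l) (hl1 : l ≤ 1) (hc : |c| ≤ 1) :
    1 / 40 ≤ ∫ x in (-1 : ℝ)..1, (1 - 3 * x ^ 2) * Real.cos (l * (x - c)) := by
  rw [A_shift]
  have h1 := A_lower (by linarith : 0 ≤ l) hl1
  have h2 : 1 / 2 ≤ Real.cos (l * c) := by
    have := Real.one_sub_sq_div_two_le_cos (x := l * c)
    have h3 : (l * c) ^ 2 ≤ 1 := by
      rw [mul_pow]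
      have h4 : c ^ 2 ≤ 1 := by rw [← sq_abs]; exact pow_le_one₀ (abs_nonneg _) hc
      have h5 : l ^ 2 ≤ 1 := pow_le_one₀ (by linarith) hl1
      nlinarith [sq_nonneg c, sq_nonneg l]
    linarith
  have h6 : 1 / 20 ≤ l ^ 2 / 5 := by nlinarith
  have h7 : 1 / 20 ≤ ∫ x in (-1 : ℝ)..1, (1 - 3 * x ^ 2) * Real.cos (l * x) := h6.trans h1
  nlinarith

/-! ### the data functions -/

/-- the rectangle -/
def SN (N : ℝ) : Set E2 := {y : E2 | -(2 * N) ≤ y 0 ∧ y 0 ≤ -N ∧ |y 1| ≤ 4 * N}

/-- the data functions -/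
noncomputable def fN (N φ : ℝ) (y : E2) : ℝ :=
  (SN N).indicator (fun y => Real.cos (N * (y 1 / y 0) - φ)) y

lemma SN_meas (N : ℝ) : MeasurableSet (SN N) := by
  have h0 : Measurable fun u : E2 => u 0 := by fun_prop
  have h1 : Measurable fun u : E2 => u 1 := by fun_prop
  exact (measurableSet_le measurable_const h0).inter
    ((measurableSet_le h0 measurable_const).inter
      (measurableSet_le (measurable_norm.comp h1) measurable_const))

lemma SN_convex (N : ℝ) : Convex ℝ (SN N) := by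
  intro x hx y hy a b ha hb hab
  obtain ⟨h1, h2, h3⟩ := hx
  obtain ⟨k1, k2, k3⟩ := hy
  have e0 : (a • x + b • y) 0 = a * x 0 + b * y 0 := by simp
  have e1 : (a • x + b • y) 1 = a * x 1 + b * y 1 := by simp
  refine ⟨?_, ?_, ?_⟩
  · rw [e0]
    have : -(2 * N) = a * (-(2 * N)) + b * (-(2 * N)) := by rw [← add_mul, hab, one_mul]
    rw [this]
    gcongr
  · rw [e0]
    have : -N = a * (-N) + b * (-N) := by rw [← add_mul, hab, one_mul]
    rw [this]
    gcongr
  · rw [e1]
    have : 4 * N = a * (4 * N) + b * (4 * N) := by rw [← add_mul, hab, one_mul]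
    rw [this]
    refine (abs_add_le _ _).trans ?_
    rw [abs_mul, abs_mul, abs_of_nonneg ha, abs_of_nonneg hb]
    gcongr

lemma fN_meas (N φ : ℝ) : Measurable (fN N φ) := by
  unfold fN
  apply Measurable.indicator _ (SN_meas N)
  have h0 : Measurable fun u : E2 => u 0 := by fun_prop
  have h1 : Measurable fun u : E2 => u 1 := by fun_prop
  exact Real.measurable_cos.comp (((h1.div h0).const_mul N).sub_const φ)

lemma fN_diff {N : ℝ} (hN : 4 ≤ N) (φ : ℝ) : ∀ᵐ x : E2, DifferentiableAt ℝ (fN N φ) x := by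
  have h1 : volume (frontier (SN N)) = 0 := (SN_convex N).addHaar_frontier volume
  have h2 : ∀ᵐ x : E2, x ∉ frontier (SN N) := measure_eq_zero_iff_ae_notMem.1 h1
  filter_upwards [h2] with x hx
  by_cases hi : x ∈ interior (SN N)
  · have hx0 : x 0 ≠ 0 := by
      have := (interior_subset hi).2.1
      linarith
    have h3 : fN N φ =ᶠ[𝓝 x] fun y => Real.cos (N * (y 1 / y 0) - φ) := by
      filter_upwards [isOpen_interior.mem_nhds hi] with y hy
      unfold fN
      rw [Set.indicator_of_mem (interior_subset hy)]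
    rw [h3.differentiableAt_iff]
    have d0 : DifferentiableAt ℝ (fun y : E2 => y 0) x := by fun_prop
    have d1 : DifferentiableAt ℝ (fun y : E2 => y 1) x := by fun_prop
    have d2 : DifferentiableAt ℝ (fun y : E2 => y 1 / y 0) x := by
      simp only [div_eq_mul_inv]
      exact d1.mul (d0.fun_inv hx0)
    exact (((d2.const_mul N).sub_const φ).cos)
  · have h4 : x ∉ closure (SN N) := by
      intro h4
      exact hx ⟨h4, hi⟩
    have h3 : fN N φ =ᶠ[𝓝 x] fun _ => (0 : ℝ) := by
      filter_upwards [isClosed_closure.isOpen_compl.mem_nhds h4] with y hy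
      unfold fN
      rw [Set.indicator_of_notMem (fun h => hy (subset_closure h))]
    rw [h3.differentiableAt_iff]
    exact differentiableAt_const _

lemma fN_bd (N φ : ℝ) (x : E2) : |fN N φ x| ≤ 1 := by
  unfold fN
  by_cases h : x ∈ SN N
  · rw [Set.indicator_of_mem h]; exact Real.abs_cos_le_one _
  · rw [Set.indicator_of_notMem h]; simp

lemma fN_good {N : ℝ} (hN : 4 ≤ N) (φ : ℝ) : Good (4 * N) (fN N φ) := by
  refine ⟨fN_meas N φ, fN_bd N φ, ?_, fN_diff hN φ⟩
  intro y hy
  have h : y ∈ SN N := by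
    by_contra h
    exact hy (by unfold fN; rw [Set.indicator_of_notMem h])
  exact ⟨by linarith [h.1], by linarith [h.2.1], h.2.2⟩

/-- the profile used as a test -/
noncomputable def tw (N φ s : ℝ) : ℝ := (Ioo (0 : ℝ) 1).indicator (fun s => Real.cos (N * s - φ)) s

lemma tw_meas (N φ : ℝ) : Measurable (tw N φ) := by
  unfold tw
  exact Measurable.indicator (by fun_prop) measurableSet_Ioo

lemma tw_abs (N φ s : ℝ) : |tw N φ s| ≤ 1 := by
  unfold tw
  by_cases h : s ∈ Ioo (0 : ℝ) 1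
  · rw [Set.indicator_of_mem h]; exact Real.abs_cos_le_one _
  · rw [Set.indicator_of_notMem h]; simp

lemma tw_int (N φ : ℝ) : Integrable (tw N φ) := by
  have : tw N φ = (Ioo (0 : ℝ) 1).indicator (tw N φ) := by
    funext s
    by_cases h : s ∈ Ioo (0 : ℝ) 1
    · rw [Set.indicator_of_mem h]
    · rw [Set.indicator_of_notMem h]; unfold tw; rw [Set.indicator_of_notMem h]
  rw [this, integrable_indicator_iff measurableSet_Ioo]
  apply Measure.integrableOn_of_bounded (M := 1) (by simp) (tw_meas N φ).aestronglyMeasurable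
  exact Filter.Eventually.of_forall (fun s => tw_abs N φ s)

/-- pointwise value of the sum of the two integrands -/
lemma FF_sum {N : ℝ} (hN : 4 ≤ N) (q : ℝ × ℝ) (r s : ℝ) :
    FF (fN N 0) (tw N 0) (q, (r, s)) + FF (fN N (Real.pi / 2)) (tw N (Real.pi / 2)) (q, (r, s)) =
    (Icc (-1 : ℝ) 1).indicator (fun a =>
      (Ioo (0 : ℝ) 1).indicator (fun s =>
        ({r : ℝ | N ≤ r - a ∧ r - a ≤ 2 * N}).indicator (fun r => r⁻¹ *
          (Icc (-1 : ℝ) 1).indicator (fun b =>
            (1 - 3 * b ^ 2) * Real.cos (N / (r - a) * (b - s * a))) q.2) r) s) q.1 := by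
  obtain ⟨a, b⟩ := q
  simp only
  by_cases ha : a ∈ Icc (-1 : ℝ) 1
  swap
  · have : aa (a, b) = 0 := by
      unfold aa; rw [Set.indicator_of_notMem]; exact fun h => ha h.1
    unfold FF
    simp only
    rw [this, Set.indicator_of_notMem ha]
    ring
  by_cases hb : b ∈ Icc (-1 : ℝ) 1
  swap
  · have : aa (a, b) = 0 := by
      unfold aa; rw [Set.indicator_of_notMem]; exact fun h => hb h.2
    unfold FF
    simp only
    rw [this, Set.indicator_of_mem ha]
    simp only [Set.indicator_of_notMem hb, mul_zero, zero_mul, add_zero]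
    simp [Set.indicator]
  by_cases hs : s ∈ Ioo (0 : ℝ) 1
  swap
  · unfold FF tw
    simp only
    rw [Set.indicator_of_notMem hs, Set.indicator_of_notMem hs, Set.indicator_of_mem ha,
      Set.indicator_of_notMem hs]
    ring
  rw [Set.indicator_of_mem ha, Set.indicator_of_mem hs]
  have haa : aa (a, b) = 1 - 3 * b ^ 2 := by
    unfold aa; rw [Set.indicator_of_mem (show ((a, b) : ℝ × ℝ) ∈ Qs from ⟨ha, hb⟩)]
  by_cases hr : r ∈ {r : ℝ | N ≤ r - a ∧ r - a ≤ 2 * N}
  · rw [Set.indicator_of_mem hr, Set.indicator_of_mem hb]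
    have hr' : N ≤ r - a ∧ r - a ≤ 2 * N := hr
    have hmem : Pt (a, b) - Psi (r, s) ∈ SN N := by
      simp only [SN, Set.mem_ofPred_eq, PiLp.sub_apply, Pt_zero, Psi_zero, Pt_one, Psi_one]
      refine ⟨by linarith [hr'.2], by linarith [hr'.1], ?_⟩
      have hr0 : 0 ≤ r := by linarith [hr'.1, ha.1]
      have hr1 : r ≤ 2 * N + 1 := by linarith [hr'.2, ha.2]
      have h1 : 0 ≤ r * s := mul_nonneg hr0 hs.1.le
      have h2 : r * s ≤ r := mul_le_of_le_one_right hr0 hs.2.le
      rw [abs_le]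
      constructor <;> linarith [hb.1, hb.2]
    unfold FF fN tw
    simp only
    rw [Set.indicator_of_mem hmem, Set.indicator_of_mem hmem, Set.indicator_of_mem hs,
      Set.indicator_of_mem hs, haa]
    simp only [PiLp.sub_apply, Pt_zero, Psi_zero, Pt_one, Psi_one, sub_zero]
    rw [Real.cos_sub_pi_div_two, Real.cos_sub_pi_div_two]
    have hne : r - a ≠ 0 := by linarith [hr'.1]
    have hne' : a - r ≠ 0 := by
      intro h; apply hne; linarith
    have e1 : N / (r - a) * (b - s * a) = -(N * ((b - r * s) / (a - r)) - N * s) := by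
      field_simp
      ring
    rw [e1, Real.cos_neg, Real.cos_sub]
    ring
  · rw [Set.indicator_of_notMem hr]
    have hmem : Pt (a, b) - Psi (r, s) ∉ SN N := by
      intro h
      apply hr
      simp only [SN, Set.mem_ofPred_eq, PiLp.sub_apply, Pt_zero, Psi_zero, Pt_one, Psi_one] at h
      exact ⟨by linarith [h.2.1], by linarith [h.1]⟩
    unfold FF fN
    simp only
    rw [Set.indicator_of_notMem hmem, Set.indicator_of_notMem hmem]
    ring

end Pool.Agent.L5helper79.Riv
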