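import Pool.Agent.L5helper79.Riv.E

set_option autoImplicit false

open MeasureTheory Filter Topology Metric Set

namespace Pool.Agent.L5helper79.Riv

/-- the sum of the two integrands -/
noncomputable def HH (N : ℝ) (z : (ℝ × ℝ) × (ℝ × ℝ)) : ℝ :=
  FF (fN N 0) (tw N 0) z + FF (fN N (Real.pi / 2)) (tw N (Real.pi / 2)) z

lemma inner_in {N : ℝ} (hN : 4 ≤ N) {a r s : ℝ} (ha : a ∈ Icc (-1 : ℝ) 1) (hs : s ∈ Ioo (0 : ℝ) 1)
    (hr : N ≤ r - a ∧ r - a ≤ 2 * N) :
    ∫ b, HH N ((a, b), (r, s)) =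
      r⁻¹ * ∫ x in (-1 : ℝ)..1, (1 - 3 * x ^ 2) * Real.cos (N / (r - a) * (x - s * a)) := by
  have h1 : ∀ b, HH N ((a, b), (r, s)) = r⁻¹ * (Icc (-1 : ℝ) 1).indicator (fun b =>
            (1 - 3 * b ^ 2) * Real.cos (N / (r - a) * (b - s * a))) b := by
    intro b
    unfold HH
    rw [FF_sum hN]
    rw [Set.indicator_of_mem ha, Set.indicator_of_mem hs,
      Set.indicator_of_mem (show r ∈ {r : ℝ | N ≤ r - a ∧ r - a ≤ 2 * N} from hr)]
  simp_rw [h1]
  rw [integral_const_mul, integral_indicator measurableSet_Icc, integral_Icc_eq_integral_Ioc,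
    ← intervalIntegral.integral_of_le (by norm_num)]

lemma inner_out {N : ℝ} (hN : 4 ≤ N) {a r s : ℝ}
    (h : ¬ (a ∈ Icc (-1 : ℝ) 1 ∧ s ∈ Ioo (0 : ℝ) 1 ∧ (N ≤ r - a ∧ r - a ≤ 2 * N))) :
    ∫ b, HH N ((a, b), (r, s)) = 0 := by
  have h1 : ∀ b, HH N ((a, b), (r, s)) = 0 := by
    intro b
    unfold HH
    rw [FF_sum hN]
    simp only
    by_cases ha : a ∈ Icc (-1 : ℝ) 1
    · rw [Set.indicator_of_mem ha]
      by_cases hs : s ∈ Ioo (0 : ℝ) 1
      · rw [Set.indicator_of_mem hs]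
        have hr : r ∉ {r : ℝ | N ≤ r - a ∧ r - a ≤ 2 * N} := fun hr => h ⟨ha, hs, hr⟩
        rw [Set.indicator_of_notMem hr]
      · rw [Set.indicator_of_notMem hs]
    · rw [Set.indicator_of_notMem ha]
  simp_rw [h1]
  exact integral_zero _ _

lemma inner_lower {N : ℝ} (hN : 4 ≤ N) {a r s : ℝ} (ha : a ∈ Icc (-1 : ℝ) 1)
    (hs : s ∈ Ioo (0 : ℝ) 1) (hr : N ≤ r - a ∧ r - a ≤ 2 * N) :
    r⁻¹ * (1 / 40) ≤ ∫ b, HH N ((a, b), (r, s)) := by
  rw [inner_in hN ha hs hr]
  have hr0 : 0 < r := by linarith [hr.1, ha.1]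
  apply mul_le_mul_of_nonneg_left _ (inv_pos.2 hr0).le
  have hpos : 0 < r - a := by linarith [hr.1]
  apply A_shift_lower
  · rw [le_div_iff₀ hpos]; linarith [hr.2]
  · rw [div_le_one hpos]; exact hr.1
  · rw [abs_mul]
    have h1 : |a| ≤ 1 := abs_le.2 ⟨ha.1, ha.2⟩
    have h2 : |s| ≤ 1 := abs_le.2 ⟨by linarith [hs.1], hs.2.le⟩
    exact mul_le_one₀ h2 (abs_nonneg _) h1

lemma inner_nonneg {N : ℝ} (hN : 4 ≤ N) (a r s : ℝ) : 0 ≤ ∫ b, HH N ((a, b), (r, s)) := by
  by_cases h : a ∈ Icc (-1 : ℝ) 1 ∧ s ∈ Ioo (0 : ℝ) 1 ∧ (N ≤ r - a ∧ r - a ≤ 2 * N)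
  · have h1 := inner_lower hN h.1 h.2.1 h.2.2
    have hr0 : 0 < r := by linarith [h.2.2.1, h.1.1]
    have : 0 < r⁻¹ := inv_pos.2 hr0
    linarith
  · rw [inner_out hN h]

theorem TT_lower {N : ℝ} (hN : 4 ≤ N) :
    1 / 80 ≤ TT (fN N 0) (tw N 0) + TT (fN N (Real.pi / 2)) (tw N (Real.pi / 2)) := by
  have i0 := FF_int (fN_good hN 0) (tw_meas N 0) (tw_int N 0)
  have i1 := FF_int (fN_good hN (Real.pi / 2)) (tw_meas N (Real.pi / 2)) (tw_int N (Real.pi / 2))
  have hH : Integrable (HH N) := i0.add i1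
  have e1 : TT (fN N 0) (tw N 0) + TT (fN N (Real.pi / 2)) (tw N (Real.pi / 2)) =
      ∫ z, HH N z := by
    unfold TT HH
    rw [integral_add i0 i1]
  have hH' : Integrable (HH N) ((volume : Measure (ℝ × ℝ)).prod (volume : Measure (ℝ × ℝ))) := hH
  have e2 : ∫ z, HH N z = ∫ p : ℝ × ℝ, ∫ q : ℝ × ℝ, HH N (q, p) :=
    integral_prod_symm (μ := (volume : Measure (ℝ × ℝ))) (ν := (volume : Measure (ℝ × ℝ)))
      (HH N) hH'
  rw [e1, e2]
  -- the lower bound
  set L : ℝ × ℝ → ℝ := (Icc (N + 1) (2 * N - 1) ×ˢ Ioo (0 : ℝ) 1).indicator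
    (fun _ => 1 / (40 * N)) with hL
  have hset : MeasurableSet (Icc (N + 1) (2 * N - 1) ×ˢ Ioo (0 : ℝ) 1) :=
    measurableSet_Icc.prod measurableSet_Ioo
  have hNpos : 0 < N := by linarith
  have hLint : ∫ p, L p = (N - 2) * (1 / (40 * N)) := by
    rw [hL, integral_indicator hset, setIntegral_const, Measure.volume_eq_prod, Measure.real,
      Measure.prod_prod, Real.volume_Icc, Real.volume_Ioo, ENNReal.toReal_mul,
      ENNReal.toReal_ofReal (by linarith), ENNReal.toReal_ofReal (by norm_num)]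
    simp only [smul_eq_mul]
    ring
  have hmono : ∫ p, L p ≤ ∫ p : ℝ × ℝ, ∫ q : ℝ × ℝ, HH N (q, p) := by
    apply integral_mono_of_nonneg
    · exact Filter.Eventually.of_forall (fun p => Set.indicator_nonneg (fun _ _ => by positivity) _)
    · exact hH'.integral_prod_right
    · filter_upwards [hH'.prod_left_ae] with p hp
      obtain ⟨r, s⟩ := p
      have hp' : Integrable (fun q : ℝ × ℝ => HH N (q, (r, s)))
        ((volume : Measure ℝ).prod (volume : Measure ℝ)) := hp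
      have e3 : ∫ q : ℝ × ℝ, HH N (q, (r, s)) = ∫ a, ∫ b, HH N ((a, b), (r, s)) :=
        integral_prod (μ := (volume : Measure ℝ)) (ν := (volume : Measure ℝ))
          (fun q : ℝ × ℝ => HH N (q, (r, s))) hp'
      rw [e3]
      by_cases hmem : ((r, s) : ℝ × ℝ) ∈ Icc (N + 1) (2 * N - 1) ×ˢ Ioo (0 : ℝ) 1
      · rw [hL, Set.indicator_of_mem hmem]
        have hr := hmem.1
        have hs := hmem.2
        simp only at hr hs
        have e4 : ∫ a, (Icc (-1 : ℝ) 1).indicator (fun _ => 1 / (80 * N)) a = 1 / (40 * N) := by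
          rw [integral_indicator measurableSet_Icc, setIntegral_const, Measure.real,
            Real.volume_Icc, ENNReal.toReal_ofReal (by norm_num)]
          simp only [smul_eq_mul]
          field_simp
          ring
        rw [← e4]
        apply integral_mono_of_nonneg
        · exact Filter.Eventually.of_forall
            (fun p => Set.indicator_nonneg (fun _ _ => by positivity) _)
        · exact hp'.integral_prod_left
        · refine Filter.Eventually.of_forall (fun a => ?_)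
          by_cases ha : a ∈ Icc (-1 : ℝ) 1
          · simp only [Set.indicator_of_mem ha]
            have hr' : N ≤ r - a ∧ r - a ≤ 2 * N :=
              ⟨by linarith [hr.1, ha.2], by linarith [hr.2, ha.1]⟩
            refine le_trans ?_ (inner_lower hN ha hs hr')
            have h5 : (2 * N)⁻¹ ≤ r⁻¹ := inv_anti₀ (by linarith [hr.1]) (by linarith [hr.2])
            have h6 : 1 / (80 * N) = (2 * N)⁻¹ * (1 / 40) := by field_simp; norm_num
            rw [h6]
            exact mul_le_mul_of_nonneg_right h5 (by norm_num)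
          · simp only [Set.indicator_of_notMem ha]
            exact inner_nonneg hN a r s
      · rw [hL, Set.indicator_of_notMem hmem]
        exact integral_nonneg (fun a => inner_nonneg hN a r s)
  refine le_trans ?_ hmono
  rw [hLint]
  rw [mul_one_div, div_le_div_iff₀ (by norm_num) (by positivity)]
  linarith

/-! ### the Hilbert space argument -/

lemma exists_signs {H : Type*} [NormedAddCommGroup H] [InnerProductSpace ℝ H] (v : ℕ → H) {c : ℝ}
    (hc : 0 ≤ c) (hv : ∀ j, c ≤ ‖v j‖) (n : ℕ) :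
    ∃ e : ℕ → ℝ, (∀ j, |e j| ≤ 1) ∧
      n * c ^ 2 ≤ ‖∑ j ∈ Finset.range n, e j • v j‖ ^ 2 := by
  induction n with
  | zero => exact ⟨fun _ => 0, by simp, by simp⟩
  | succ n ih =>
    obtain ⟨e, he, hn⟩ := ih
    set S := ∑ j ∈ Finset.range n, e j • v j with hS
    set σ : ℝ := if 0 ≤ inner ℝ S (v n) then 1 else -1 with hσ
    have hσ1 : |σ| = 1 := by
      rw [hσ]; split_ifs <;> simp
    have hσ2 : 0 ≤ σ * inner ℝ S (v n) := by
      rw [hσ]; split_ifs with h
      · simpa using h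
      · push Not at h; linarith
    refine ⟨fun j => if j = n then σ else e j, ?_, ?_⟩
    · intro j
      simp only
      split_ifs
      · exact hσ1.le
      · exact he j
    · rw [Finset.sum_range_succ]
      have h1 : ∑ j ∈ Finset.range n, (if j = n then σ else e j) • v j = S := by
        rw [hS]
        apply Finset.sum_congr rfl
        intro j hj
        rw [if_neg (Finset.mem_range.1 hj).ne]
      have h1' : (fun j => if j = n then σ else e j) n = σ := if_pos rfl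
      rw [h1, h1', norm_add_sq_real, inner_smul_right, norm_smul, Real.norm_eq_abs, hσ1,
        one_mul]
      have h2 : c ^ 2 ≤ ‖v n‖ ^ 2 := pow_le_pow_left₀ hc (hv n) 2
      push_cast
      nlinarith

theorem hs_unbounded {H : Type*} [NormedAddCommGroup H] [InnerProductSpace ℝ H] [CompleteSpace H]
    (v : ℕ → H) {c : ℝ} (hc : 0 < c) (hv : ∀ j, c ≤ ‖v j‖) :
    ∃ x : H, ∀ C : ℝ, ∃ n : ℕ, ∃ e : ℕ → ℝ, (∀ j, |e j| ≤ 1) ∧
      C < ∑ j ∈ Finset.range n, e j * inner ℝ (v j) x := by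
  by_contra hcon
  push Not at hcon
  let ι := {p : ℕ × (ℕ → ℝ) // ∀ j, |p.2 j| ≤ 1}
  let g : ι → (H →L[ℝ] ℝ) := fun i => innerSL ℝ (∑ j ∈ Finset.range i.1.1, i.1.2 j • v j)
  have hg : ∀ x, ∃ C, ∀ i, ‖g i x‖ ≤ C := by
    intro x
    obtain ⟨C, hC⟩ := hcon x
    refine ⟨C, ?_⟩
    rintro ⟨⟨n, e⟩, he⟩
    have e1 : (g ⟨(n, e), he⟩) x = ∑ j ∈ Finset.range n, e j * inner ℝ (v j) x := by
      simp only [g, innerSL_apply_apply, sum_inner, real_inner_smul_left]
    rw [e1, Real.norm_eq_abs, abs_le]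
    constructor
    · have := hC n (fun j => -e j) (by intro j; rw [abs_neg]; exact he j)
      simp only [neg_mul, Finset.sum_neg_distrib] at this
      linarith
    · exact hC n e he
  obtain ⟨C', hC'⟩ := banach_steinhaus hg
  obtain ⟨n, hn⟩ := exists_nat_gt (C' ^ 2 / c ^ 2)
  obtain ⟨e, he, hle⟩ := exists_signs v hc.le hv n
  have h1 := hC' ⟨(n, e), he⟩
  simp only [g, innerSL_apply_norm] at h1
  have h2 : C' ^ 2 < n * c ^ 2 := by
    rwa [div_lt_iff₀ (by positivity)] at hn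
  have h3 : ‖∑ j ∈ Finset.range n, e j • v j‖ ^ 2 ≤ C' ^ 2 :=
    pow_le_pow_left₀ (norm_nonneg _) h1 2
  linarith

end Pool.Agent.L5helper79.Riv
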