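import Pool.Agent.L5helper79.Riv.F

set_option autoImplicit false

open MeasureTheory Filter Topology Metric Set

namespace Pool.Agent.L5helper79.Riv

/-- Lebesgue measure on the unit interval -/
noncomputable abbrev m01 : Measure ℝ := volume.restrict (Ioo (0 : ℝ) 1)

/-- the Hilbert space of profiles -/
noncomputable abbrev H01 : Type := Lp ℝ 2 m01

/-- a measurable profile supported in the unit interval -/
noncomputable def prof (x : H01) (s : ℝ) : ℝ := (Ioo (0 : ℝ) 1).indicator (fun s => x s) s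

lemma prof_meas (x : H01) : Measurable (prof x) := by
  unfold prof
  exact (Lp.stronglyMeasurable x).measurable.indicator measurableSet_Ioo

lemma prof_supp (x : H01) : ∀ s, s ∉ Ioo (0 : ℝ) 1 → prof x s = 0 := by
  intro s hs
  unfold prof
  rw [Set.indicator_of_notMem hs]

lemma prof_memLp (x : H01) : MemLp (prof x) 2 volume := by
  have h1 : MemLp (fun s => x s) 2 m01 := Lp.memLp x
  have h2 : MemLp ((Ioo (0 : ℝ) 1).indicator (fun s => x s)) 2 volume := by
    rw [memLp_indicator_iff_restrict measurableSet_Ioo]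
    exact h1
  exact h2

lemma prof_sq (x : H01) : Integrable (fun s => prof x s ^ 2) := (prof_memLp x).integrable_sq

lemma prof_int (x : H01) : Integrable (prof x) := by
  have h1 : MemLp (fun s => x s) 2 m01 := Lp.memLp x
  have h2 : Integrable (fun s => x s) m01 := h1.integrable (by norm_num)
  have h3 : Integrable ((Ioo (0 : ℝ) 1).indicator (fun s => x s)) := by
    rw [integrable_indicator_iff measurableSet_Ioo]
    exact h2
  exact h3

lemma wf_memLp {R : ℝ} {f : E2 → ℝ} (hf : Good R f) : MemLp (wf f) 2 m01 := by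
  obtain ⟨K, hK⟩ := wf_bound hf
  exact MemLp.of_bound (wf_meas hf.meas).aestronglyMeasurable K
    (Filter.Eventually.of_forall (fun s => by rw [Real.norm_eq_abs]; exact hK s))

/-- the vector representing the functional -/
noncomputable def vec {R : ℝ} {f : E2 → ℝ} (hf : Good R f) : H01 := (wf_memLp hf).toLp (wf f)

lemma inner_vec {R : ℝ} {f : E2 → ℝ} (hf : Good R f) (x : H01) :
    inner ℝ (vec hf) x = TT f (prof x) := by
  rw [TT_eq hf (prof_meas x) (prof_int x), L2.inner_def]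
  have h1 : ∫ s, prof x s * wf f s = ∫ s in Ioo (0 : ℝ) 1, x s * wf f s := by
    rw [← integral_indicator measurableSet_Ioo]
    apply integral_congr_ae
    refine Filter.Eventually.of_forall (fun s => ?_)
    simp only [prof]
    by_cases h : s ∈ Ioo (0 : ℝ) 1
    · rw [Set.indicator_of_mem h, Set.indicator_of_mem h]
    · rw [Set.indicator_of_notMem h, Set.indicator_of_notMem h, zero_mul]
  rw [h1]
  apply integral_congr_ae
  filter_upwards [(wf_memLp hf).coeFn_toLp] with s hs
  unfold vec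
  rw [hs]
  simp

lemma tw_memLp (N φ : ℝ) : MemLp (tw N φ) 2 m01 :=
  MemLp.of_bound (tw_meas N φ).aestronglyMeasurable 1
    (Filter.Eventually.of_forall (fun s => by rw [Real.norm_eq_abs]; exact tw_abs N φ s))

lemma tw_norm (N φ : ℝ) : ‖(tw_memLp N φ).toLp (tw N φ)‖ ≤ 1 := by
  rw [Lp.norm_toLp]
  have h1 : eLpNorm (tw N φ) 2 m01 ≤ 1 := by
    refine (eLpNorm_le_of_ae_bound (C := 1) (Filter.Eventually.of_forall
      (fun s => by rw [Real.norm_eq_abs]; exact tw_abs N φ s))).trans ?_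
    simp [m01]
  exact ENNReal.toReal_le_of_le_ofReal zero_le_one (by simpa using h1)

lemma inner_tw {R : ℝ} {f : E2 → ℝ} (hf : Good R f) (N φ : ℝ) :
    inner ℝ (vec hf) ((tw_memLp N φ).toLp (tw N φ)) = TT f (tw N φ) := by
  rw [TT_eq hf (tw_meas N φ) (tw_int N φ), L2.inner_def]
  have h1 : ∫ s, tw N φ s * wf f s = ∫ s in Ioo (0 : ℝ) 1, tw N φ s * wf f s := by
    rw [← integral_indicator measurableSet_Ioo]
    apply integral_congr_ae
    refine Filter.Eventually.of_forall (fun s => ?_)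
    simp only [tw]
    by_cases h : s ∈ Ioo (0 : ℝ) 1
    · rw [Set.indicator_of_mem h, Set.indicator_of_mem h, Set.indicator_of_mem h]
    · rw [Set.indicator_of_notMem h, Set.indicator_of_notMem h, zero_mul]
  rw [h1]
  apply integral_congr_ae
  filter_upwards [(wf_memLp hf).coeFn_toLp, (tw_memLp N φ).coeFn_toLp] with s hs hs2
  unfold vec
  rw [hs, hs2]
  simp

/-- one of the two phases gives a functional of norm bounded below -/
lemma phase_exists {N : ℝ} (hN : 4 ≤ N) : ∃ φ : ℝ, 1 / 160 ≤ ‖vec (fN_good hN φ)‖ := by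
  by_contra hcon
  push Not at hcon
  have h0 := hcon 0
  have h1 := hcon (Real.pi / 2)
  have h2 := TT_lower hN
  rw [← inner_tw (fN_good hN 0), ← inner_tw (fN_good hN (Real.pi / 2))] at h2
  have h3 := real_inner_le_norm (vec (fN_good hN 0)) ((tw_memLp N 0).toLp (tw N 0))
  have h4 := real_inner_le_norm (vec (fN_good hN (Real.pi / 2)))
    ((tw_memLp N (Real.pi / 2)).toLp (tw N (Real.pi / 2)))
  have h5 := tw_norm N 0
  have h6 := tw_norm N (Real.pi / 2)
  have h7 : ‖vec (fN_good hN 0)‖ * ‖(tw_memLp N 0).toLp (tw N 0)‖ ≤ ‖vec (fN_good hN 0)‖ * 1 :=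
    mul_le_mul_of_nonneg_left h5 (norm_nonneg _)
  have h8 : ‖vec (fN_good hN (Real.pi / 2))‖ *
      ‖(tw_memLp N (Real.pi / 2)).toLp (tw N (Real.pi / 2))‖ ≤
      ‖vec (fN_good hN (Real.pi / 2))‖ * 1 :=
    mul_le_mul_of_nonneg_left h6 (norm_nonneg _)
  linarith

/-- the scales -/
noncomputable def Nj (j : ℕ) : ℝ := 4 ^ (j + 1)

lemma Nj_ge (j : ℕ) : 4 ≤ Nj j := by
  unfold Nj
  calc (4 : ℝ) = 4 ^ 1 := by norm_num
    _ ≤ 4 ^ (j + 1) := pow_le_pow_right₀ (by norm_num) (by omega)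

lemma Nj_mono {j k : ℕ} (h : j ≤ k) : Nj j ≤ Nj k :=
  pow_le_pow_right₀ (by norm_num) (by omega)

lemma Nj_gap {j k : ℕ} (h : j < k) : 4 * Nj j ≤ Nj k := by
  unfold Nj
  calc (4 : ℝ) * 4 ^ (j + 1) = 4 ^ (j + 2) := by ring
    _ ≤ 4 ^ (k + 1) := pow_le_pow_right₀ (by norm_num) (by omega)

lemma SN_disj {j k : ℕ} {y : E2} (hj : y ∈ SN (Nj j)) (hk : y ∈ SN (Nj k)) : j = k := by
  rcases lt_trichotomy j k with h | h | h
  · exfalso
    have := Nj_gap h
    have h1 := Nj_ge j
    linarith [hj.1, hk.2.1]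
  · exact h
  · exfalso
    have := Nj_gap h
    have h1 := Nj_ge k
    linarith [hk.1, hj.2.1]

lemma good_sum (φ : ℕ → ℝ) (n : ℕ) (e : ℕ → ℝ) (he : ∀ j, |e j| ≤ 1) :
    Good (4 * Nj n) (fun y => ∑ j ∈ Finset.range n, e j * fN (Nj j) (φ j) y) := by
  have hz : ∀ (j : ℕ) (y : E2), y ∉ SN (Nj j) → fN (Nj j) (φ j) y = 0 := by
    intro j y hy
    unfold fN
    rw [Set.indicator_of_notMem hy]
  refine ⟨?_, ?_, ?_, ?_⟩
  · exact Finset.measurable_sum _ (fun j _ => (fN_meas _ _).const_mul _)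
  · intro x
    by_cases h : ∃ k ∈ Finset.range n, x ∈ SN (Nj k)
    · obtain ⟨k, hk, hx⟩ := h
      rw [Finset.sum_eq_single_of_mem k hk]
      · rw [abs_mul]
        exact mul_le_one₀ (he k) (abs_nonneg _) (fN_bd _ _ _)
      · intro j _ hjk
        rw [hz j x (fun hj => hjk (SN_disj hj hx)), mul_zero]
    · push Not at h
      rw [Finset.sum_eq_zero]
      · simp
      · intro j hj
        rw [hz j x (h j hj), mul_zero]
  · intro y hy
    obtain ⟨j, hj, hne⟩ := Finset.exists_ne_zero_of_sum_ne_zero hy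
    have hf : fN (Nj j) (φ j) y ≠ 0 := fun h => hne (by rw [h, mul_zero])
    have h1 := (fN_good (Nj_ge j) (φ j)).supp y hf
    have h2 := Nj_mono (Finset.mem_range.1 hj).le
    exact ⟨by linarith [h1.1], h1.2.1, by linarith [h1.2.2]⟩
  · have h1 : ∀ᵐ x : E2, ∀ j : ℕ, DifferentiableAt ℝ (fN (Nj j) (φ j)) x :=
      ae_all_iff.2 (fun j => fN_diff (Nj_ge j) (φ j))
    filter_upwards [h1] with x hx
    apply DifferentiableAt.fun_sum
    intro j _
    exact (hx j).const_mul _

lemma TT_sum (φ : ℕ → ℝ) (n : ℕ) (e : ℕ → ℝ) {w : ℝ → ℝ} (hw : Measurable w)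
    (hwi : Integrable w) :
    TT (fun y => ∑ j ∈ Finset.range n, e j * fN (Nj j) (φ j) y) w =
      ∑ j ∈ Finset.range n, e j * TT (fN (Nj j) (φ j)) w := by
  unfold TT
  have h1 : ∀ z, FF (fun y => ∑ j ∈ Finset.range n, e j * fN (Nj j) (φ j) y) w z =
      ∑ j ∈ Finset.range n, e j * FF (fN (Nj j) (φ j)) w z := by
    intro z
    unfold FF
    rw [Finset.mul_sum]
    apply Finset.sum_congr rfl
    intro j _
    ring
  simp_rw [h1]
  rw [integral_finset_sum]
  · apply Finset.sum_congr rfl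
    intro j _
    rw [integral_const_mul]
  · intro j _
    exact (FF_int (fN_good (Nj_ge j) (φ j)) hw hwi).const_mul _

lemma av_int_zero : ∫ x in ball (0 : E2) 2, av x = 0 := by
  have h2 : ∫ x in ball (0 : E2) 2, av x = ∫ x, av x := by
    apply setIntegral_eq_integral_of_forall_compl_eq_zero
    intro x hx
    by_cases hq : ((x 0, x 1) : ℝ × ℝ) ∈ Qs
    · exfalso
      apply hx
      rw [mem_ball, dist_zero_right]
      apply lt_of_pow_lt_pow_left₀ 2 (by norm_num)
      rw [nsq]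
      have h3 := hq.1
      have h4 := hq.2
      simp only [mem_Icc] at h3 h4
      nlinarith
    · unfold av aa; rw [Set.indicator_of_notMem hq]
  rw [h2, ← mp_Pt.map_eq,
    integral_map mp_Pt.measurable.aemeasurable av_meas.aestronglyMeasurable]
  have h3 : ∀ q : ℝ × ℝ, av (Pt q) = (Icc (-1 : ℝ) 1).indicator (fun _ => (1 : ℝ)) q.1 *
      (Icc (-1 : ℝ) 1).indicator (fun b => 1 - 3 * b ^ 2) q.2 := by
    intro q
    rw [av_Pt]
    unfold aa Qs
    by_cases h1 : q.1 ∈ Icc (-1 : ℝ) 1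
    · by_cases h2 : q.2 ∈ Icc (-1 : ℝ) 1
      · rw [Set.indicator_of_mem (show q ∈ Icc (-1 : ℝ) 1 ×ˢ Icc (-1 : ℝ) 1 from ⟨h1, h2⟩),
          Set.indicator_of_mem h1, Set.indicator_of_mem h2, one_mul]
      · rw [Set.indicator_of_notMem (fun h => h2 h.2), Set.indicator_of_notMem h2, mul_zero]
    · rw [Set.indicator_of_notMem (fun h => h1 h.1), Set.indicator_of_notMem h1, zero_mul]
  simp_rw [h3]
  rw [Measure.volume_eq_prod, integral_prod_mul (fun a : ℝ => (Icc (-1 : ℝ) 1).indicator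
    (fun _ => (1 : ℝ)) a) (fun b : ℝ => (Icc (-1 : ℝ) 1).indicator (fun b => 1 - 3 * b ^ 2) b)]
  have h4 : ∫ b : ℝ, (Icc (-1 : ℝ) 1).indicator (fun b => 1 - 3 * b ^ 2) b = 0 := by
    rw [integral_indicator measurableSet_Icc, integral_Icc_eq_integral_Ioc,
      ← intervalIntegral.integral_of_le (by norm_num), intervalIntegral.integral_sub,
      intervalIntegral.integral_const_mul, integral_pow]
    · simp
      norm_num
    all_goals apply Continuous.intervalIntegrable; fun_prop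
  rw [h4, mul_zero]

end Pool.Agent.L5helper79.Riv
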